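import Pool.Agent.P8H39.TI.Stm5
import Pool.Agent.P8H59.TI.B1

/-!
# Project TI, package B5 (with the lemmas of `P8H59/TI/B1.lean`, helper59; the last part follows
`P8H20/TI/Bpos.lean`, helper20)
-/

set_option autoImplicit false
set_option linter.all false

namespace Pool.Agent.P8H84.TI

open Finset
open Pool.Agent.P8H39.TI Pool.Agent.P8H59.TI

/-- `tau_le` of `P8H59/TI/B1.lean` with the inequality as hypothesis -/
theorem tau_le' (ν κ q a W : ℕ) (hκ : 1 ≤ κ) (hW : ν - 1 - q - κ - a = W + 1)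
    (h1 : (q + a + 1) * (κ + a) ≤ (a + 1) * (W + 1)) : tau ν κ q (a + 1) ≤ tau ν κ q a := by
  have hW2 : ν - 1 - q - κ - (a + 1) = W := by omega
  have h2 : ((q + a + 1) * (κ + a) : ℝ) ≤ (a + 1) * (W + 1) := by exact_mod_cast h1
  have h3 : ((q + a + 1).choose q : ℝ) * (a + 1) = ((q + a).choose q : ℝ) * (q + a + 1) := by
    have h4 := Nat.add_one_mul_choose_eq (q + a) a
    have h5 : (q + a).choose a = (q + a).choose q := by
      rw [← Nat.choose_symm (by omega : a ≤ q + a)]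
      congr 1
      omega
    have h6 : (q + a + 1).choose (a + 1) = (q + a + 1).choose q := by
      rw [← Nat.choose_symm (by omega : a + 1 ≤ q + a + 1)]
      congr 1
      omega
    rw [h5, h6] at h4
    have h7 : ((q : ℝ) + a + 1) * ((q + a).choose q : ℝ) = ((q + a + 1).choose q : ℝ) * (a + 1) := by
      exact_mod_cast h4
    linarith
  unfold tau
  rw [hW, hW2, show q + (a + 1) = q + a + 1 by ring, show κ + (a + 1) - 1 = (κ + a - 1) + 1 by omega,
    Nat.factorial_succ (κ + a - 1), Nat.factorial_succ W, show κ + a - 1 + 1 = κ + a by omega]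
  push_cast
  have ha : (0 : ℝ) < (a : ℝ) + 1 := by positivity
  refine le_of_mul_le_mul_right ?_ ha
  have hX : 0 ≤ ((q + a).choose q : ℝ) * (κ * ((κ + a - 1).factorial : ℝ) * (W.factorial : ℝ) /
      ((ν - 1 - q).factorial : ℝ)) := by positivity
  calc ((q + a + 1).choose q : ℝ) * (κ * (((κ : ℝ) + a) * ((κ + a - 1).factorial : ℝ)) *
        (W.factorial : ℝ) / ((ν - 1 - q).factorial : ℝ)) * ((a : ℝ) + 1) =
      (((q + a + 1).choose q : ℝ) * (a + 1)) * (((κ : ℝ) + a) * (κ * ((κ + a - 1).factorial : ℝ) *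
        (W.factorial : ℝ) / ((ν - 1 - q).factorial : ℝ))) := by ring
    _ = (((q + a).choose q : ℝ) * (κ * ((κ + a - 1).factorial : ℝ) * (W.factorial : ℝ) /
      ((ν - 1 - q).factorial : ℝ))) * ((q + a + 1) * (κ + a)) := by rw [h3]; ring
    _ ≤ (((q + a).choose q : ℝ) * (κ * ((κ + a - 1).factorial : ℝ) * (W.factorial : ℝ) /
      ((ν - 1 - q).factorial : ℝ))) * ((a + 1) * (W + 1)) := mul_le_mul_of_nonneg_left h2 hX
    _ = _ := by ring

theorem BB_sum (ν κ q r : ℕ) (hν2 : r + κ + 1 ≤ ν) (l : ℕ) (hl : l ≤ r) :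
    ∑ e ∈ range (l + 1), BB ν κ q e * (l.choose e : ℝ) * ((ν - l).choose (ν - κ - e) : ℝ) =
      if q < l then 1 else 0 := by
  have h1 : ∀ e ∈ range (l + 1), BB ν κ q e * (l.choose e : ℝ) * ((ν - l).choose (ν - κ - e) : ℝ) =
      ∑ u ∈ range l, gg ν κ q u * ((l.choose e : ℝ) * (e.choose (u + 1) : ℝ) *
        ((ν - l).choose (ν - κ - e) : ℝ)) := by
    intro e he
    rw [Finset.mem_range] at he
    unfold BB
    have h2 : range e ⊆ range l := by
      intro x hx
      rw [Finset.mem_range] at hx ⊢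
      omega
    rw [Finset.sum_subset h2 (fun u _ hu => by
      rw [Finset.mem_range] at hu
      rw [Nat.choose_eq_zero_of_lt (by omega : e < u + 1)]
      simp), Finset.sum_mul, Finset.sum_mul]
    refine Finset.sum_congr rfl fun u _ => ?_
    ring
  rw [Finset.sum_congr rfl h1, Finset.sum_comm]
  have h3 : ∀ u ∈ range l, ∑ e ∈ range (l + 1), gg ν κ q u * ((l.choose e : ℝ) *
      (e.choose (u + 1) : ℝ) * ((ν - l).choose (ν - κ - e) : ℝ)) =
      (-1 : ℝ) ^ (u + q) * (u.choose q : ℝ) * (l.choose (u + 1) : ℝ) := by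
    intro u hu
    rw [Finset.mem_range] at hu
    rw [← Finset.mul_sum]
    have h4 := vand ν κ l (u + 1) (by omega) (by omega)
    have h5 : ∑ e ∈ range (l + 1), ((l.choose e : ℝ) * (e.choose (u + 1) : ℝ) *
        ((ν - l).choose (ν - κ - e) : ℝ)) = (l.choose (u + 1) : ℝ) * ((ν - 1 - u).choose κ : ℝ) := by
      rw [show ν - 1 - u = ν - (u + 1) by omega]
      exact_mod_cast h4
    rw [h5]
    unfold gg
    have h6 : ((ν - 1 - u).choose κ : ℝ) ≠ 0 := by
      exact_mod_cast (Nat.choose_pos (show κ ≤ ν - 1 - u by omega)).ne'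
    field_simp
  rw [Finset.sum_congr rfl h3, lemW]

theorem tau_nonneg (ν κ q a : ℕ) : 0 ≤ tau ν κ q a := by
  unfold tau
  positivity

theorem BB_nonneg (ν κ q t e : ℕ) (hκ : 2 ≤ κ) (hq : q ≤ κ) (hν : (t + 1) * κ + 1 ≤ ν) (he : e ≤ t) :
    0 ≤ BB ν κ q e := by
  have hν2 : t + κ + 1 ≤ ν := by
    have : (t + 1) * κ = t * κ + κ := by ring
    have : t * 1 ≤ t * κ := Nat.mul_le_mul_left _ (by omega)
    omega
  rcases Nat.lt_or_ge q e with h | h
  · obtain ⟨a, rfl⟩ : ∃ a, e = q + a + 1 := ⟨e - q - 1, by omega⟩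
    rw [BB_eq ν κ q a (by omega) (by omega)]
    exact alt_nonneg _ a (fun i _ => tau_nonneg _ _ _ _)
      (fun i hi => tau_le ν κ q i t hκ hq (by omega) hν)
  · rw [BB_zero ν κ q e h]

theorem BB_top (ν κ q t : ℕ) (hκ : 3 ≤ κ) (hq : q ≤ κ) (hqt : q + 2 ≤ t)
    (hν : (t + 1) * κ + 1 ≤ ν) : 0 ≤ BB ν κ q (t + 1) := by
  have hν2 : 3 * t + κ + 1 ≤ ν := by
    have : (t + 1) * κ = t * κ + κ := by ring
    have : t * 3 ≤ t * κ := Nat.mul_le_mul_left _ hκ
    omega
  obtain ⟨a, rfl⟩ : ∃ a, t = q + a := ⟨t - q, by omega⟩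
  rw [BB_eq ν κ q a (by omega) (by omega)]
  refine alt_nonneg _ a (fun i _ => tau_nonneg _ _ _ _) (fun i hi => ?_)
  rcases Nat.lt_or_ge (i + 1) a with h | h
  · exact tau_le ν κ q i (q + a) (by omega) hq (by omega) hν
  · obtain ⟨j, rfl⟩ : ∃ j, i = j + 1 := ⟨i - 1, by omega⟩
    obtain rfl : a = j + 2 := by omega
    obtain ⟨κ', rfl⟩ : ∃ κ', κ = κ' + 3 := ⟨κ - 3, by omega⟩
    refine tau_le' ν (κ' + 3) q (j + 1) (ν - 1 - q - (κ' + 3) - (j + 1) - 1) (by omega) (by omega) ?_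
    obtain ⟨w, hw⟩ : ∃ w, ν = w + (q + j + 2) + (κ' + 3) := ⟨ν - (q + j + 2) - (κ' + 3), by omega⟩
    have hw1 : ν - 1 - q - (κ' + 3) - (j + 1) - 1 + 1 = w := by omega
    rw [hw1]
    have hw2 : (q + j + 2) * (κ' + 2) + 1 ≤ w := by
      have e1 : (q + (j + 2) + 1) * (κ' + 3) = (q + j + 2) * (κ' + 2) + (q + j + 2) + (κ' + 3) := by ring
      omega
    have hw3 : (j + 1 + 1) * ((q + j + 2) * (κ' + 2) + 1) ≤ (j + 1 + 1) * w :=
      Nat.mul_le_mul_left _ hw2
    refine le_trans (Nat.le.intro (k := (q + j + 2) * (κ' * (j + 1) + j) + (j + 2)) ?_) hw3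
    ring

/-- the two last coefficients -/
theorem tau_one (κ s N : ℕ) (hκ : 1 ≤ κ) :
    tau (N + κ + s + 2) κ s 1 * ((N : ℝ) + 1) = ((s : ℝ) + 1) * κ * tau (N + κ + s + 2) κ s 0 := by
  unfold tau
  have e1 : N + κ + s + 2 - 1 - s - κ - 1 = N := by omega
  have e2 : N + κ + s + 2 - 1 - s - κ - 0 = N + 1 := by omega
  have e3 : κ + 1 - 1 = (κ - 1) + 1 := by omega
  have e4 : κ + 0 - 1 = κ - 1 := by omega
  have e5 : (s + 1).choose s = s + 1 := Nat.choose_succ_self_right s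
  have e6 : (s + 0).choose s = 1 := by simp
  rw [e1, e2, e3, e4, e5, e6, Nat.factorial_succ (κ - 1), Nat.factorial_succ N,
    show κ - 1 + 1 = κ by omega]
  push_cast
  have h : ((N + κ + s + 2 - 1 - s).factorial : ℝ) ≠ 0 := by exact_mod_cast Nat.factorial_ne_zero _
  field_simp

theorem tau_zero (κ s N : ℕ) (hκ : 1 ≤ κ) :
    tau (N + κ + s + 2) κ (s + 1) 0 * ((N : ℝ) + 1) =
      ((N : ℝ) + κ + 1) * tau (N + κ + s + 2) κ s 0 := by
  unfold tau
  have e1 : N + κ + s + 2 - 1 - (s + 1) - κ - 0 = N := by omega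
  have e2 : N + κ + s + 2 - 1 - s - κ - 0 = N + 1 := by omega
  have e3 : N + κ + s + 2 - 1 - (s + 1) = N + κ := by omega
  have e4 : N + κ + s + 2 - 1 - s = N + κ + 1 := by omega
  have e5 : (s + 1 + 0).choose (s + 1) = 1 := by simp
  have e6 : (s + 0).choose s = 1 := by simp
  rw [e1, e2, e3, e4, e5, e6, Nat.factorial_succ (N + κ), Nat.factorial_succ N]
  push_cast
  have h : ((N + κ).factorial : ℝ) ≠ 0 := by exact_mod_cast Nat.factorial_ne_zero _
  have h2 : ((N : ℝ) + κ + 1) ≠ 0 := by positivity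
  field_simp

theorem last_two (κ s N : ℕ) (hκ : 1 ≤ κ) (hs : s ≤ κ) (hN : (s + 1) * κ + s ≤ N + κ + 1)
    (c : ℝ) (σ : ℕ → ℝ) (hσ : ∀ l, σ l = (((N + κ + s + 2 - l).choose (N + κ + s + 2 - κ) : ℕ) : ℝ)) :
    0 ≤ (max (c - σ (s + 1)) 0 - max (c - σ s) 0) * BB (N + κ + s + 2) κ s (s + 1 + 1) +
      (max (c - σ (s + 2)) 0 - max (c - σ (s + 1)) 0) * BB (N + κ + s + 2) κ (s + 1) (s + 1 + 1) := by
  have hB1 : BB (N + κ + s + 2) κ s (s + 1 + 1) =
      tau (N + κ + s + 2) κ s 0 - tau (N + κ + s + 2) κ s 1 := by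
    rw [BB_eq (N + κ + s + 2) κ s 1 hκ (by omega)]
    rw [Finset.sum_range_succ, Finset.sum_range_one]
    ring
  have hB2 : BB (N + κ + s + 2) κ (s + 1) (s + 1 + 1) = tau (N + κ + s + 2) κ (s + 1) 0 := by
    have := BB_eq (N + κ + s + 2) κ (s + 1) 0 hκ (by omega)
    rw [Finset.sum_range_one, pow_zero, one_mul] at this
    exact this
  have ht1 := tau_one κ s N hκ
  have ht0 := tau_zero κ s N hκ
  have hA := tau_nonneg (N + κ + s + 2) κ s 0
  have hT := tau_nonneg (N + κ + s + 2) κ (s + 1) 0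
  have hσ0 : σ s = (((N + κ + 2).choose (N + s + 2) : ℕ) : ℝ) := by
    rw [hσ, show N + κ + s + 2 - s = N + κ + 2 by omega,
      show N + κ + s + 2 - κ = N + s + 2 by omega]
  have hσ1 : σ (s + 1) = (((N + κ + 1).choose (N + s + 2) : ℕ) : ℝ) := by
    rw [hσ, show N + κ + s + 2 - (s + 1) = N + κ + 1 by omega,
      show N + κ + s + 2 - κ = N + s + 2 by omega]
  have hσ2 : σ (s + 2) = (((N + κ).choose (N + s + 2) : ℕ) : ℝ) := by
    rw [hσ, show N + κ + s + 2 - (s + 2) = N + κ by omega,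
      show N + κ + s + 2 - κ = N + s + 2 by omega]
  have hd1 : σ s - σ (s + 1) = (((N + κ + 1).choose (N + s + 1) : ℕ) : ℝ) := by
    rw [hσ0, hσ1, show N + κ + 2 = (N + κ + 1) + 1 by ring, show N + s + 2 = (N + s + 1) + 1 by ring,
      Nat.choose_succ_succ]
    push_cast
    ring
  have hd2 : σ (s + 1) - σ (s + 2) = (((N + κ).choose (N + s + 1) : ℕ) : ℝ) := by
    rw [hσ1, hσ2, show N + s + 2 = (N + s + 1) + 1 by ring, Nat.choose_succ_succ]
    push_cast
    ring
  have hrel : (σ (s + 1) - σ (s + 2)) * ((N : ℝ) + κ + 1) = (σ s - σ (s + 1)) * ((κ : ℝ) - s) := by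
    rw [hd1, hd2]
    have h := Nat.choose_mul_succ_eq (N + κ) (N + s + 1)
    rw [show N + κ + 1 - (N + s + 1) = κ - s by omega] at h
    have h' : (((N + κ).choose (N + s + 1) : ℕ) : ℝ) * (((N + κ + 1 : ℕ)) : ℝ) =
        (((N + κ + 1).choose (N + s + 1) : ℕ) : ℝ) * ((κ - s : ℕ) : ℝ) := by exact_mod_cast h
    rw [Nat.cast_sub hs] at h'
    push_cast at h'
    exact h'
  have hp1 : 0 ≤ σ s - σ (s + 1) := by rw [hd1]; positivity
  have hp2 : 0 ≤ σ (s + 1) - σ (s + 2) := by rw [hd2]; positivity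
  rw [hB1, hB2]
  set A := tau (N + κ + s + 2) κ s 0 with hAdef
  set T1 := tau (N + κ + s + 2) κ s 1 with hT1def
  set B2 := tau (N + κ + s + 2) κ (s + 1) 0 with hB2def
  have hN1 : (0 : ℝ) < (N : ℝ) + 1 := by positivity
  rcases le_or_gt c (σ (s + 1)) with h | h
  · have e1 : max (c - σ (s + 1)) 0 = 0 := max_eq_right (by linarith)
    have e2 : max (c - σ s) 0 = 0 := max_eq_right (by linarith)
    rw [e1, e2]
    have : 0 ≤ max (c - σ (s + 2)) 0 := le_max_right _ _
    nlinarith [mul_nonneg this hT]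
  · have e1 : max (c - σ (s + 1)) 0 = c - σ (s + 1) := max_eq_left (by linarith)
    have e2 : max (c - σ (s + 2)) 0 = c - σ (s + 2) := max_eq_left (by linarith)
    have e3 : c - σ s ≤ max (c - σ s) 0 := le_max_left _ _
    have e4 : max (c - σ s) 0 ≤ c - σ (s + 1) := max_le (by linarith) (by linarith)
    rw [e1, e2]
    have hmain : 0 ≤ (σ s - σ (s + 1)) * (A - T1) + (σ (s + 1) - σ (s + 2)) * B2 := by
      refine le_of_mul_le_mul_right ?_ hN1
      rw [zero_mul]
      have e5 : ((σ s - σ (s + 1)) * (A - T1) + (σ (s + 1) - σ (s + 2)) * B2) * ((N : ℝ) + 1) =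
          (σ s - σ (s + 1)) * A * (((N : ℝ) + κ + 1) - (((s : ℝ) + 1) * κ + s)) := by
        have e6 : ((σ s - σ (s + 1)) * (A - T1) + (σ (s + 1) - σ (s + 2)) * B2) * ((N : ℝ) + 1) =
          (σ s - σ (s + 1)) * (A * ((N : ℝ) + 1) - T1 * ((N : ℝ) + 1)) +
            (σ (s + 1) - σ (s + 2)) * (B2 * ((N : ℝ) + 1)) := by ring
        rw [e6, ht1, ht0]
        have e7 : (σ (s + 1) - σ (s + 2)) * (((N : ℝ) + κ + 1) * A) =
          ((σ (s + 1) - σ (s + 2)) * ((N : ℝ) + κ + 1)) * A := by ring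
        rw [e7, hrel]
        ring
      rw [e5]
      have e8 : (((s : ℝ) + 1) * κ + s) ≤ ((N : ℝ) + κ + 1) := by exact_mod_cast hN
      exact mul_nonneg (mul_nonneg hp1 hA) (by linarith)
    have e9 : c - σ (s + 2) - (c - σ (s + 1)) = σ (s + 1) - σ (s + 2) := by ring
    rw [e9]
    rcases le_or_gt 0 (A - T1) with h5 | h5
    · exact add_nonneg (mul_nonneg (by linarith) h5) (mul_nonneg hp2 hT)
    · have h6 : (σ s - σ (s + 1)) * (A - T1) ≤ (c - σ (s + 1) - max (c - σ s) 0) * (A - T1) := by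
        refine mul_le_mul_of_nonpos_right ?_ h5.le
        linarith
      linarith

/-- **B5** -/
theorem b5 : S_B5 := by
  intro t κ ν c ht hκ hν hcase hc0 hc
  obtain ⟨s, rfl⟩ : ∃ s, t = s + 1 := ⟨t - 1, by omega⟩
  obtain ⟨σ, hσ⟩ : ∃ σ : ℕ → ℝ, ∀ l, σ l = (((ν - l).choose (ν - κ) : ℕ) : ℝ) := ⟨_, fun _ => rfl⟩
  obtain ⟨m, hm⟩ : ∃ m : ℕ → ℝ, ∀ l, m l = max (c - σ l) 0 := ⟨_, fun _ => rfl⟩
  have hν2 : s + 1 + 1 + κ + 1 ≤ ν := by
    have e1 : (s + 1 + 1) * κ = (s + 1) * κ + κ := by ring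
    have e2 : (s + 1) * 3 ≤ (s + 1) * κ := Nat.mul_le_mul_left _ hκ
    omega
  have hanti : ∀ q, σ (q + 1) ≤ σ q := by
    intro q
    rw [hσ, hσ]
    exact_mod_cast Nat.choose_le_choose (ν - κ) (by omega : ν - (q + 1) ≤ ν - q)
  have hδ0 : ∀ q, 0 ≤ m (q + 1) - m q := by
    intro q
    rw [hm, hm]
    have := max_le_max (sub_le_sub_left (hanti q) c) (le_refl (0 : ℝ))
    linarith
  have hz : ∀ q, κ < q → σ q = 0 := by
    intro q hq
    rw [hσ, Nat.choose_eq_zero_of_lt (by omega), Nat.cast_zero]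
  have hδκ : ∀ q, κ < q → m (q + 1) - m q = 0 := by
    intro q hq
    rw [hm, hm, hz q hq, hz (q + 1) (by omega), sub_self]
  have hm0 : m 0 = 0 := by
    rw [hm, hσ, Nat.sub_zero, Nat.choose_symm (by omega : κ ≤ ν)]
    exact max_eq_right (by linarith)
  refine ⟨fun e => if e ≤ s + 1 + 1 then (if e = 0 then 1 else 0) +
    ∑ q ∈ range (s + 1 + 1), (m (q + 1) - m q) * BB ν κ q e else 0, ?_, ?_, ?_⟩
  · simp only [Nat.zero_le, if_true]
    rw [Finset.sum_eq_zero fun q _ => by rw [BB_zero ν κ q 0 (Nat.zero_le q), mul_zero], add_zero]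
  · intro e
    show (0 : ℝ) ≤ if e ≤ s + 1 + 1 then (if e = 0 then 1 else 0) +
      ∑ q ∈ range (s + 1 + 1), (m (q + 1) - m q) * BB ν κ q e else 0
    by_cases he : e ≤ s + 1 + 1
    · rw [if_pos he]
      have h2 : (0 : ℝ) ≤ if e = 0 then 1 else 0 := by split_ifs <;> norm_num
      refine add_nonneg h2 ?_
      rcases Nat.lt_or_ge e (s + 1 + 1) with h | h
      · refine Finset.sum_nonneg fun q _ => ?_
        rcases Nat.lt_or_ge κ q with hq | hq
        · rw [hδκ q hq, zero_mul]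
        · exact mul_nonneg (hδ0 q) (BB_nonneg ν κ q (s + 1) e (by omega) hq hν (by omega))
      · obtain rfl : e = s + 1 + 1 := by omega
        rw [Finset.sum_range_succ, Finset.sum_range_succ]
        have h3 : 0 ≤ ∑ q ∈ range s, (m (q + 1) - m q) * BB ν κ q (s + 1 + 1) := by
          refine Finset.sum_nonneg fun q hq' => ?_
          rw [Finset.mem_range] at hq'
          rcases Nat.lt_or_ge κ q with hq | hq
          · rw [hδκ q hq, zero_mul]
          · exact mul_nonneg (hδ0 q) (BB_top ν κ q (s + 1) hκ hq (by omega) hν)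
        rcases Nat.lt_or_ge κ s with hs | hs
        · rw [hδκ s hs, hδκ (s + 1) (by omega), zero_mul, zero_mul, add_zero, add_zero]
          exact h3
        · rcases hcase with h4 | h4
          · omega
          · obtain ⟨N, rfl⟩ : ∃ N, ν = N + κ + s + 2 := ⟨ν - κ - s - 2, by omega⟩
            have h5 := last_two κ s N (by omega) hs (by omega) c σ hσ
            rw [← hm, ← hm, ← hm] at h5
            rw [add_assoc]
            exact add_nonneg h3 h5
    · rw [if_neg he]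
  · intro l hl
    have e1 : ∑ e ∈ range (l + 1), (if e ≤ s + 1 + 1 then ((if e = 0 then 1 else 0) : ℝ) +
        ∑ q ∈ range (s + 1 + 1), (m (q + 1) - m q) * BB ν κ q e else 0) * (l.choose e : ℝ) *
          ((ν - l).choose (ν - κ - e) : ℝ)
        = ∑ e ∈ range (l + 1), (((if e = 0 then 1 else 0) : ℝ) * (l.choose e : ℝ) *
          ((ν - l).choose (ν - κ - e) : ℝ) + ∑ q ∈ range (s + 1 + 1), (m (q + 1) - m q) *
            (BB ν κ q e * (l.choose e : ℝ) * ((ν - l).choose (ν - κ - e) : ℝ))) := by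
      refine Finset.sum_congr rfl fun e he => ?_
      rw [Finset.mem_range] at he
      rw [if_pos (by omega), add_mul, add_mul, Finset.sum_mul, Finset.sum_mul]
      congr 1
      exact Finset.sum_congr rfl fun q _ => by ring
    have e2 : ∑ e ∈ range (l + 1), ((if e = 0 then 1 else 0) : ℝ) * (l.choose e : ℝ) *
        ((ν - l).choose (ν - κ - e) : ℝ) = σ l := by
      rw [Finset.sum_eq_single 0]
      · rw [hσ]
        simp
      · intro e _ he
        rw [if_neg he]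
        ring
      · intro h
        simp at h
    have e3 : ∑ e ∈ range (l + 1), ∑ q ∈ range (s + 1 + 1), (m (q + 1) - m q) * (BB ν κ q e *
        (l.choose e : ℝ) * ((ν - l).choose (ν - κ - e) : ℝ)) = m l := by
      rw [Finset.sum_comm]
      have e4 : ∀ q ∈ range (s + 1 + 1), ∑ e ∈ range (l + 1), (m (q + 1) - m q) * (BB ν κ q e *
          (l.choose e : ℝ) * ((ν - l).choose (ν - κ - e) : ℝ)) =
            if q < l then (m (q + 1) - m q) else 0 := by
        intro q _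
        rw [← Finset.mul_sum, BB_sum ν κ q (s + 1 + 1) hν2 l hl]
        split_ifs <;> ring
      rw [Finset.sum_congr rfl e4, ← Finset.sum_filter]
      have e5 : (range (s + 1 + 1)).filter (fun q => q < l) = range l := by
        ext q
        rw [Finset.mem_filter, Finset.mem_range, Finset.mem_range]
        omega
      rw [e5, Finset.sum_range_sub, hm0, sub_zero]
    show ∑ e ∈ range (l + 1), (if e ≤ s + 1 + 1 then ((if e = 0 then 1 else 0) : ℝ) +
        ∑ q ∈ range (s + 1 + 1), (m (q + 1) - m q) * BB ν κ q e else 0) * (l.choose e : ℝ) *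
          ((ν - l).choose (ν - κ - e) : ℝ) = _
    rw [e1, Finset.sum_add_distrib, e2, e3, hm, ← hσ]
    rcases le_total (σ l) c with h | h
    · rw [max_eq_left (by linarith), max_eq_right h]
      ring
    · rw [max_eq_right (by linarith), max_eq_left h, add_zero]

end Pool.Agent.P8H84.TI
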